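import Pool.Agent.H11.NZ.Defs

/-!
# Targets of the board nz_modules (MP_9b2842_al, alternating type, arbitrary kernels)

Every module `XX` proves `pf_xx : T_A → T_B → ... → T_XX` (the dependencies of the row are
hypotheses), so all modules can be written in parallel.
-/

set_option autoImplicit false
set_option linter.unusedVariables false

open Equiv (Perm)

namespace Pool.Agent.H11.NZ

open Pool.Agent.H11.NY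

/-! ### The subgroups `X` and `D` -/

def T_XE : Prop := ∀ (L Ω : Type) [Group L] [Finite L] [Fintype Ω] [DecidableEq Ω]
    (ψ : L →* alternatingGroup Ω), 5 ≤ Fintype.card Ω → Function.Surjective ψ →
    ∃ X : Subgroup L, XMin ψ X

def T_XP : Prop := ∀ (L Ω : Type) [Group L] [Fintype Ω] [DecidableEq Ω]
    (ψ : L →* alternatingGroup Ω) (X : Subgroup L), 5 ≤ Fintype.card Ω → XMin ψ X →
    ⁅X, X⁆ = X

def T_XC : Prop := ∀ (L Ω : Type) [Group L] [Fintype Ω] [DecidableEq Ω]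
    (ψ : L →* alternatingGroup Ω) (X : Subgroup L), 5 ≤ Fintype.card Ω → XMin ψ X →
    ∀ C : Subgroup L, (∀ x ∈ X, ∀ c ∈ C, x * c * x⁻¹ ∈ C) → (∃ t ∈ C, ψ t ≠ 1) → X ≤ C

def T_XQ : Prop := ∀ (L Q Ω : Type) [Group L] [Group Q] [Fintype Ω] [DecidableEq Ω]
    (ψ : L →* alternatingGroup Ω) (ψ' : Q →* alternatingGroup Ω) (π : L →* Q),
    Function.Surjective π → (∀ y, ψ' (π y) = ψ y) → ∀ X : Subgroup L, XMin ψ X →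
    XMin ψ' (X.map π) ∧ ∀ (Δ : Finset Ω) (D : Subgroup L), DOn ψ X Δ D →
      DOn ψ' (X.map π) Δ (D.map π)

def T_XS : Prop := ∀ (L Ω : Type) [Group L] [Fintype Ω] [DecidableEq Ω]
    (ψ : L →* alternatingGroup Ω) (X H : Subgroup L), X ≤ H → XMin ψ X →
    XMin (ψ.comp H.subtype) (X.subgroupOf H) ∧ ∀ (Δ : Finset Ω) (D : Subgroup L),
      DOn ψ X Δ D → DOn (ψ.comp H.subtype) (X.subgroupOf H) Δ (D.subgroupOf H)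

def T_DE : Prop := ∀ (L Ω : Type) [Group L] [Finite L] [Fintype Ω] [DecidableEq Ω]
    (ψ : L →* alternatingGroup Ω) (X : Subgroup L), XMin ψ X → ∀ Δ : Finset Ω,
    5 ≤ Δ.card → ∃ D : Subgroup L, DOn ψ X Δ D

def T_DP : Prop := ∀ (L Ω : Type) [Group L] [Fintype Ω] [DecidableEq Ω]
    (ψ : L →* alternatingGroup Ω) (X : Subgroup L) (Δ : Finset Ω) (D : Subgroup L),
    5 ≤ Δ.card → DOn ψ X Δ D → PerfOn ψ Δ D

def T_DC : Prop := ∀ (L Ω : Type) [Group L] [Fintype Ω] [DecidableEq Ω]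
    (ψ : L →* alternatingGroup Ω) (X : Subgroup L), X.Normal → ∀ (Δ : Finset Ω)
    (D : Subgroup L), DOn ψ X Δ D → ∀ y : L,
    DOn ψ X (Δ.image fun ω => (ψ y : Perm Ω) ω) (D.map (MulAut.conj y).toMonoidHom)

def T_STX : Prop := ∀ (L Ω : Type) [Group L] [Fintype Ω] [DecidableEq Ω]
    (ψ : L →* alternatingGroup Ω) (X : Subgroup L), 6 ≤ Fintype.card Ω → XMin ψ X →
    ∀ (ω : Ω) (C : Subgroup L), (∀ x ∈ C, (ψ x : Perm Ω) ω = ω) →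
    (∀ y ∈ X, (ψ y : Perm Ω) ω = ω → ∀ x ∈ C, y * x * y⁻¹ ∈ C) → (∃ x ∈ C, ψ x ≠ 1) →
    ∀ Δ : Finset Ω, ω ∉ Δ → ∀ D : Subgroup L, DOn ψ X Δ D → D ≤ C

/-! ### Permutations -/

def T_NCM : Prop := ∀ (Ω : Type) [Fintype Ω] [DecidableEq Ω], 5 ≤ Fintype.card Ω →
    ∀ τ : alternatingGroup Ω, τ ≠ 1 →
    Nat.card (alternatingGroup Ω) ≤ Fintype.card Ω ^ 4 *
      Nat.card {σ : alternatingGroup Ω // τ * (σ * τ * σ⁻¹) ≠ σ * τ * σ⁻¹ * τ}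

def T_CLS : Prop := ∀ (Ω : Type) [Fintype Ω] [DecidableEq Ω] (u : ℕ)
    (τ : alternatingGroup Ω) (Y : Subgroup (alternatingGroup Ω)),
    4 * u + 2 ≤ (τ : Perm Ω).support.card → (∀ y ∈ Y, y * τ = τ * y) →
    Fintype.card Ω ^ u * Nat.card Y ≤ 2 ^ u * Nat.card (alternatingGroup Ω)

def T_MV : Prop := ∀ m : ℕ, ∃ B : ℕ, ∀ (L Ω I : Type) [Group L] [Finite L] [Fintype Ω]
    [DecidableEq Ω] [Fintype I] [DecidableEq I] [MulAction L I]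
    (ψ : L →* alternatingGroup Ω) (X : Subgroup L), XMin ψ X →
    MulAction.IsPretransitive L I → (∃ x ∈ X, ∃ i : I, x • i ≠ i) → ∀ t : L,
    B ≤ (ψ t : Perm Ω).support.card →
    m ≤ (Finset.univ.filter fun i : I => t • i ≠ i).card

def T_TQ : Prop := ∀ (T : Type) [Group T] [Finite T] (S : Set T),
    (∃ x y : T, x * y ≠ y * x) → (∀ u ∈ S, ∀ v ∈ S, u * v ∈ S → u * v = v * u) →
    4 * Nat.card S ≤ 3 * Nat.card T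

/-! ### Non-abelian chief factors -/

def T_NSS : Prop := ∀ (Q : Type) [Group Q] [Finite Q] (N : Subgroup Q), N.Normal →
    N ≠ ⊥ → ⁅N, N⁆ = N → (∀ M : Subgroup Q, M.Normal → M ≤ N → M = ⊥ ∨ M = N) →
    ∃ (I : Type) (_ : Fintype I) (_ : DecidableEq I) (_ : MulAction Q I)
      (T : I → Subgroup Q), Socle N T

def T_RS : Prop := ∀ (L : Type) [Group L] [Finite L] (M Z : Subgroup L), M.Normal →
    Z.Normal → Z < M → ⁅M, M⁆ = M →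
    (∀ M' : Subgroup L, M'.Normal → Z ≤ M' → M' ≤ M → M' = Z ∨ M' = M) →
    ∃ (I : Type) (_ : Fintype I) (_ : DecidableEq I) (_ : MulAction L I)
      (T : I → Subgroup L), RSoc Z M T

def T_OUT : Prop := ∀ (Q Ω : Type) [Group Q] [Finite Q] [Fintype Ω] [DecidableEq Ω]
    (ψ : Q →* alternatingGroup Ω) (X : Subgroup Q), 5 ≤ Fintype.card Ω → XMin ψ X →
    ∀ T : Subgroup Q, T ≤ X → T ≤ ψ.ker → (∃ x ∈ T, ∃ y ∈ T, x * y ≠ y * x) →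
    (∀ x ∈ X, ∀ y ∈ T, x * y * x⁻¹ ∈ T) → ¬ OutSol T

def T_XNT : Prop := ∀ (L Ω I : Type) [Group L] [Finite L] [Fintype Ω] [DecidableEq Ω]
    [MulAction L I] (ψ : L →* alternatingGroup Ω) (X : Subgroup L), 5 ≤ Fintype.card Ω →
    XMin ψ X → Sch (ψ.ker ⊓ X) → ∀ (M Z : Subgroup L) (T : I → Subgroup L),
    M ≤ ψ.ker ⊓ X → Z.Normal → Z ≤ ψ.ker → RSoc Z M T → ∃ x ∈ X, ∃ i : I, x • i ≠ i

def T_RSS : Prop := ∀ (L I Q : Type) [Group L] [MulAction L I] [Group Q] (Z M : Subgroup L)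
    (T : I → Subgroup L) (π : L →* Q), Function.Surjective π → π.ker = Z → RSoc Z M T →
    ∀ [MulAction Q I], (∀ (y : L) (i : I), π y • i = y • i) →
    Socle (M.map π) fun i => (T i).map π

def T_FPA : Prop := ∀ s : ℕ, ∃ m : ℕ, ∀ (I : Type) [Fintype I] [DecidableEq I]
    (T : I → Type) [∀ i, Group (T i)] [∀ i, Finite (T i)] (R : Subgroup (∀ i, T i))
    (σ : Perm I) (τ : (∀ i, T i) ≃* (∀ i, T i)), Over σ τ →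
    (∀ i, ∃ u : T i, ∀ r ∈ R, r i ≠ u) → m ≤ σ.support.card →
    s * Nat.card {x : ∀ i, T i // x⁻¹ * τ x ∈ R} ≤ Nat.card (∀ i, T i)

def T_FBF : Prop := ∀ (I : Type) [Fintype I] [DecidableEq I]
    (T : I → Type) [∀ i, Group (T i)] [∀ i, Finite (T i)] (R : Subgroup (∀ i, T i))
    (σ : Perm I) (τ : (∀ i, T i) ≃* (∀ i, T i)), Over σ τ → (∀ r ∈ R, τ r ∈ R) →
    ∀ (s : ℕ) (J : Finset I),
    (∀ τ' : (∀ i, T i) ≃* (∀ i, T i), Over σ τ' → (∀ r ∈ R, τ' r ∈ R) →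
      s * Nat.card {w : ∀ i, T i // (∀ i ∉ J, w i = 1) ∧ w⁻¹ * τ' w ∈ R} ≤
        Nat.card {w : ∀ i, T i // ∀ i ∉ J, w i = 1}) →
    s * Nat.card {x : ∀ i, T i // x⁻¹ * τ x ∈ R} ≤ Nat.card (∀ i, T i)

def T_FBA : Prop := ∀ (I : Type) [Fintype I] [DecidableEq I]
    (T : I → Type) [∀ i, Group (T i)] [∀ i, Finite (T i)] (R : Subgroup (∀ i, T i))
    (σ : Perm I) (τ : (∀ i, T i) ≃* (∀ i, T i)), Over σ τ →
    (∀ i, ∃ x y : T i, x * y ≠ y * x) → ∀ J : Finset I, (∀ i ∈ J, σ i ∉ J) →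
    (∀ i ∈ J, ∃ j, j ≠ i ∧ (∀ r ∈ R, r i = 1 ↔ r j = 1) ∧ j ∉ J ∧
      (σ.symm j ∈ J → j = σ i)) →
    4 ^ J.card * Nat.card {w : ∀ i, T i // (∀ i ∉ J, w i = 1) ∧ w⁻¹ * τ w ∈ R} ≤
      3 ^ J.card * Nat.card {w : ∀ i, T i // ∀ i ∉ J, w i = 1}

def T_FBB : Prop := ∀ (I : Type) [Fintype I] [DecidableEq I]
    (T : I → Type) [∀ i, Group (T i)] [∀ i, Finite (T i)] (R : Subgroup (∀ i, T i))
    (σ : Perm I) (τ : (∀ i, T i) ≃* (∀ i, T i)), Over σ τ →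
    (∀ i, ∃ x y : T i, x * y ≠ y * x) → ∀ J : Finset I, (∀ i ∈ J, σ i ∉ J) →
    (∀ i ∈ J, ∀ j ∈ J, ∀ r ∈ R, r i = 1 ↔ r j = 1) → ∀ s : ℕ, s + 1 ≤ J.card →
    2 ^ s * Nat.card {w : ∀ i, T i // (∀ i ∉ J, w i = 1) ∧ w⁻¹ * τ w ∈ R} ≤
      Nat.card {w : ∀ i, T i // ∀ i ∉ J, w i = 1}

def T_FPB : Prop := ∀ s : ℕ, ∃ m : ℕ, ∀ (I : Type) [Fintype I] [DecidableEq I]
    (T : I → Type) [∀ i, Group (T i)] [∀ i, Finite (T i)] (R : Subgroup (∀ i, T i))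
    (σ : Perm I) (τ : (∀ i, T i) ≃* (∀ i, T i)), Over σ τ → (∀ r ∈ R, τ r ∈ R) →
    (∀ i, ∃ x y : T i, x * y ≠ y * x) →
    (∀ i, ∃ j, j ≠ i ∧ ∀ r ∈ R, r i = 1 ↔ r j = 1) → m ≤ σ.support.card →
    s * Nat.card {x : ∀ i, T i // x⁻¹ * τ x ∈ R} ≤ Nat.card (∀ i, T i)

def T_FPS : Prop := ∀ (I : Type) [Fintype I] [DecidableEq I] (T : I → Type)
    [∀ i, Group (T i)] [∀ i, Finite (T i)] (R : Subgroup (∀ i, T i)),
    (∀ i, IsSimpleGroup (T i)) → (∀ i, ∃ x y : T i, x * y ≠ y * x) →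
    (∀ i j, ∃ (σ : Perm I) (τ : (∀ i, T i) ≃* (∀ i, T i)), σ i = j ∧ Over σ τ ∧
      ∀ r ∈ R, τ r ∈ R) → R ≠ ⊤ →
    (∀ i, ∃ u : T i, ∀ r ∈ R, r i ≠ u) ∨
      ∀ i, ∃ j, j ≠ i ∧ ∀ r ∈ R, r i = 1 ↔ r j = 1

def T_FPR : Prop := ∀ s : ℕ, ∃ m : ℕ, ∀ (Q I : Type) [Group Q] [Finite Q] [Fintype I]
    [DecidableEq I] [MulAction Q I] (N : Subgroup Q) (T : I → Subgroup Q), Socle N T →
    ∀ S : Subgroup Q, (∀ y : Q, ∃ x ∈ N, x⁻¹ * y ∈ S) → ¬ N ≤ S → ∀ t : Q,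
    m ≤ (Finset.univ.filter fun i : I => t • i ≠ i).card →
    s * Nat.card {x : Q // x ∈ N ∧ x⁻¹ * t * x ∈ S} ≤ Nat.card N

/-! ### Stabilisers -/

def T_OF : Prop := ∀ (L Ω : Type) [Group L] [Finite L] [Fintype Ω] [DecidableEq Ω]
    (ψ : L →* alternatingGroup Ω) (X : Subgroup L), 5 ≤ Fintype.card Ω → XMin ψ X →
    ∀ S : Subgroup L, ¬ X ≤ S → ∀ (e q p : ℕ) (a h : L), HPair ψ e 1 q p a h →
    TCS q a h S → ∀ y : L, y⁻¹ * a * y ∈ X ⊔ S ∧ y⁻¹ * h * y ∈ X ⊔ S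

def T_PTA : Prop := ∀ (L Ω : Type) [Group L] [Finite L] [Fintype Ω] [DecidableEq Ω]
    (ψ : L →* alternatingGroup Ω) (X : Subgroup L), 5 ≤ Fintype.card Ω → XMin ψ X →
    ∀ M A : Subgroup L, IsCoatom M → ¬ X ≤ M → A.Normal → M.normalCore ≤ A → ¬ A ≤ M →
    (∀ x ∈ A, ∀ y ∈ A, x * y * x⁻¹ * y⁻¹ ∈ M.normalCore) →
    (∀ A' : Subgroup L, A'.Normal → M.normalCore ≤ A' → A' ≤ A →
      A' = M.normalCore ∨ A' = A) →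
    ∀ e : ℕ, (∀ r : ℕ, r.Prime → ∃ (q p : ℕ) (a h : L), q ≠ r ∧ HPair ψ e 1 q p a h ∧
      TCS q a h M) → False

def T_PTN : Prop := ∀ e : ℕ, ∃ B : ℕ, ∀ (L Ω : Type) [Group L] [Finite L] [Fintype Ω]
    [DecidableEq Ω] (ψ : L →* alternatingGroup Ω) (X : Subgroup L), XMin ψ X →
    Sch (ψ.ker ⊓ X) → ∀ M A : Subgroup L, IsCoatom M → ¬ X ≤ M → A.Normal →
    A ≤ ψ.ker ⊓ X → ¬ A ≤ M → ⁅A, A⁆ = A →
    (∀ A' : Subgroup L, A'.Normal → A' ≤ A → A' ≤ M ∨ A' = A) →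
    ∀ (q p : ℕ) (a h : L), HPair ψ e B q p a h → TCS q a h M → False

def T_PTR : Prop := ∀ e : ℕ, ∃ B : ℕ, ∀ (L Ω : Type) [Group L] [Finite L] [Fintype Ω]
    [DecidableEq Ω] (ψ : L →* alternatingGroup Ω) (X : Subgroup L), XMin ψ X →
    ∀ M : Subgroup L, ¬ X ≤ M → ψ.ker ⊓ X ≤ M → ψ.ker ⊔ M = ⊤ →
    ∀ (q p : ℕ) (a h : L), HPair ψ e B q p a h → TCS q a h M → False

def T_PTK : Prop := ∀ e : ℕ, ∃ B : ℕ, ∀ (L Ω : Type) [Group L] [Finite L] [Fintype Ω]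
    [DecidableEq Ω] (ψ : L →* alternatingGroup Ω) (X : Subgroup L), XMin ψ X →
    ∀ M : Subgroup L, ¬ X ≤ M → ψ.ker ≤ M →
    ∀ (q p : ℕ) (a h : L), HPair ψ e B q p a h → TCS q a h M →
    ∃ ω : Ω, ∀ y ∈ M, (ψ y : Perm Ω) ω = ω

def T_PT : Prop := ∀ e : ℕ, ∃ B : ℕ, ∀ (L Ω : Type) [Group L] [Finite L] [Fintype Ω]
    [DecidableEq Ω] (ψ : L →* alternatingGroup Ω) (X : Subgroup L), XMin ψ X →
    Sch (ψ.ker ⊓ X) → ∀ S : Subgroup L, ¬ X ≤ S →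
    (∀ r : ℕ, r.Prime → ∃ (q p : ℕ) (a h : L), q ≠ r ∧ HPair ψ e B q p a h ∧
      TCS q a h S) → ∃ ω : Ω, ∀ y ∈ S, (ψ y : Perm Ω) ω = ω

/-! ### Systems of imprimitivity -/

def T_A5X : Prop := ∀ (L Ω Λ : Type) [Group L] [Finite L] [Fintype Ω] [DecidableEq Ω]
    [Fintype Λ] [MulAction L Λ] (ψ : L →* alternatingGroup Ω) (X : Subgroup L),
    6 ≤ Fintype.card Ω → XMin ψ X → ∀ (K V : Type) [Field K] [AddCommGroup V] [Module K V]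
    (ρ : L →* Module.End K V) (W : Λ → Submodule K V), Sys ρ W →
    ∀ f : Λ → Ω, (∀ (y : L) (x : Λ), f (y • x) = (ψ y : Perm Ω) (f x)) →
    ∀ (e q p : ℕ) (a h : L), HPair ψ e 1 q p a h → Rel ρ a h q →
    ∀ (c : ℕ) (v : V), LocAt ψ X c ρ v

def T_CAX : Prop := ∀ e : ℕ, ∃ B : ℕ, ∀ (L Ω Λ : Type) [Group L] [Finite L] [Fintype Ω]
    [DecidableEq Ω] [Fintype Λ] [MulAction L Λ] (ψ : L →* alternatingGroup Ω)
    (X : Subgroup L), XMin ψ X → Sch (ψ.ker ⊓ X) → ∀ (K V : Type) [Field K]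
    [AddCommGroup V] [Module K V] (ρ : L →* Module.End K V) (W : Λ → Submodule K V),
    Sys ρ W → (∃ x ∈ X, ∃ i : Λ, x • i ≠ i) →
    (∀ r : ℕ, r.Prime → ∃ (q p : ℕ) (a h : L), q ≠ r ∧ HPair ψ e B q p a h ∧
      Rel ρ a h q) → ∀ v : V, LocAt ψ X e ρ v

def T_QPA : Prop := ∀ (L K V : Type) [Group L] [Finite L] [Field K] [AddCommGroup V]
    [Module K V] [Module.Finite K V] (ρ : L →* Module.End K V), Irr ρ →
    ∃ (Λ : Type) (_ : Fintype Λ) (_ : DecidableEq Λ) (_ : MulAction L Λ)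
      (W : Λ → Submodule K V) (x₀ : Λ)
      (ρ' : MulAction.stabilizer L x₀ →* Module.End K (W x₀)), Sys ρ W ∧
      (∀ (y : MulAction.stabilizer L x₀) (v : W x₀), (ρ' y v : V) = ρ (y : L) (v : V)) ∧
      Irr ρ' ∧ ∀ (Λ' : Type) [Finite Λ'] [MulAction (MulAction.stabilizer L x₀) Λ']
        (W' : Λ' → Submodule K (W x₀)), Sys ρ' W' → Subsingleton Λ'

def T_QPB : Prop := ∀ (L K V : Type) [Group L] [Finite L] [Field K] [IsAlgClosed K]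
    [AddCommGroup V] [Module K V] [Module.Finite K V] (ρ : L →* Module.End K V), Irr ρ →
    (∀ (Λ : Type) [Finite Λ] [MulAction L Λ] (W : Λ → Submodule K V), Sys ρ W →
      Subsingleton Λ) → ∀ M : Subgroup L, M.Normal → Faith ρ M

def T_AIX : Prop := ∀ (L Ω Λ : Type) [Group L] [Finite L] [Fintype Ω] [DecidableEq Ω]
    [Fintype Λ] [MulAction L Λ] (ψ : L →* alternatingGroup Ω) (X : Subgroup L),
    5 ≤ Fintype.card Ω → XMin ψ X → ∀ (K V : Type) [Field K] [AddCommGroup V] [Module K V]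
    (ρ : L →* Module.End K V) (W : Λ → Submodule K V), Sys ρ W →
    (∀ x ∈ X, ∀ i : Λ, x • i = i) → ∀ (e q p : ℕ) (a h : L), HPair ψ e 1 q p a h →
    Rel ρ a h q → (∀ i : Λ, a • i = i) ∨ ∀ x ∈ X, ∀ v : V, ρ x v = v

def T_LPX : Prop := ∀ (L Ω Λ : Type) [Group L] [Finite L] [Fintype Ω] [DecidableEq Ω]
    [Fintype Λ] [MulAction L Λ] (ψ : L →* alternatingGroup Ω) (K V : Type) [Field K]
    [AddCommGroup V] [Module K V] (ρ : L →* Module.End K V) (W : Λ → Submodule K V),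
    Sys ρ W → ∀ (x₀ : Λ) (ρ' : MulAction.stabilizer L x₀ →* Module.End K (W x₀)),
    (∀ (y : MulAction.stabilizer L x₀) (v : W x₀), (ρ' y v : V) = ρ (y : L) (v : V)) →
    ∀ (e B q p : ℕ) (a h : L), 1 ≤ B → HPair ψ e B q p a h → (q : K) ≠ 0 →
    (p : K) ≠ 0 → Rel ρ a h q → ∀ ha : a ∈ MulAction.stabilizer L x₀,
    LP (ψ.comp (MulAction.stabilizer L x₀).subtype) ρ' e B q ⟨a, ha⟩

/-! ### The three local cases -/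

def T_B1X : Prop := ∀ (L Ω : Type) [Group L] [Finite L] [Fintype Ω] [DecidableEq Ω]
    (ψ : L →* alternatingGroup Ω) (X : Subgroup L), 5 ≤ Fintype.card Ω → XMin ψ X →
    ∀ (K V : Type) [Field K] [IsAlgClosed K] [AddCommGroup V] [Module K V]
    [Module.Finite K V] (ρ : L →* Module.End K V), (∃ v : V, v ≠ 0) →
    (∀ M : Subgroup L, M.Normal → M ≤ X → (∀ x ∈ M, ∀ y ∈ M, ρ x * ρ y = ρ y * ρ x) →
      Scal ρ M) →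
    ∀ M : Subgroup L, M.Normal → M ≤ ψ.ker ⊓ X → ¬ Scal ρ M →
    (∀ M' : Subgroup L, M'.Normal → M' < M → Scal ρ M') → ⁅M, M⁆ ≠ M →
    ∃ (Z : Subgroup L) (r : ℕ), r.Prime ∧ Z.Normal ∧ Z ≤ M ∧
      (∀ x ∈ M, x ∈ Z ↔ ∃ z : K, ∀ v : V, ρ x v = z • v) ∧
      (∀ x ∈ M, ∀ y ∈ M, x * y * x⁻¹ * y⁻¹ ∈ Z) ∧ (∀ x ∈ M, x ^ r ∈ Z) ∧
      (∀ x ∈ M, (∀ y ∈ M, ρ x * ρ y = ρ y * ρ x) → x ∈ Z) ∧
      ∀ y : L, (∀ x ∈ M, y * x * y⁻¹ * x⁻¹ ∈ Z) → ψ y = 1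

def T_AC0 : Prop := ∀ (L : Type) [Group L] [Finite L] (K V : Type) [Field K]
    [IsAlgClosed K] [AddCommGroup V] [Module K V] [Module.Finite K V]
    (ρ : L →* Module.End K V), (∃ v : V, v ≠ 0) → ∀ (M Z : Subgroup L) (r : ℕ), M.Normal →
    Z ≤ M → r.Prime → (∀ x ∈ M, x ∈ Z ↔ ∃ z : K, ∀ v : V, ρ x v = z • v) →
    (∀ x ∈ M, ∀ y ∈ M, x * y * x⁻¹ * y⁻¹ ∈ Z) → (∀ x ∈ M, x ^ r ∈ Z) →
    (∀ x ∈ M, (∀ y ∈ M, ρ x * ρ y = ρ y * ρ x) → x ∈ Z) →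
    ∀ (e q : ℕ) (a : L), q.Prime → q ≤ e → q ≠ r → (q : K) ≠ 0 → a ^ q = 1 → a ≠ 1 →
    (∀ t ∈ Subgroup.zpowers a, t ≠ 1 →
      e ^ 6 * Nat.card {x : L // x ∈ M ∧ t * x * t⁻¹ * x⁻¹ ∈ Z} < Nat.card M) →
    ∃ v : V, v ≠ 0 ∧ ρ a v = v

def T_PBX : Prop := ∀ e : ℕ, ∃ B : ℕ, ∀ (L Ω : Type) [Group L] [Finite L] [Fintype Ω]
    [DecidableEq Ω] (ψ : L →* alternatingGroup Ω) (X : Subgroup L), XMin ψ X →
    ∀ (K V : Type) [Field K] [IsAlgClosed K] [AddCommGroup V] [Module K V]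
    [Module.Finite K V] (ρ : L →* Module.End K V), (∃ v : V, v ≠ 0) →
    (∀ M : Subgroup L, M.Normal → M ≤ X → (∀ x ∈ M, ∀ y ∈ M, ρ x * ρ y = ρ y * ρ x) →
      Scal ρ M) →
    ∀ M : Subgroup L, M.Normal → M ≤ ψ.ker ⊓ X → ¬ Scal ρ M →
    (∀ M' : Subgroup L, M'.Normal → M' < M → Scal ρ M') → ⁅M, M⁆ ≠ M →
    (∀ r : ℕ, r.Prime → ∃ (q : ℕ) (a : L), q ≠ r ∧ LP ψ ρ e B q a) → False

def T_DSL : Prop := ∀ e n : ℕ, ∃ B : ℕ, ∀ (L Ω I : Type) [Group L] [Finite L] [Fintype Ω]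
    [DecidableEq Ω] [Fintype I] [DecidableEq I] [MulAction L I]
    (ψ : L →* alternatingGroup Ω) (X : Subgroup L), XMin ψ X →
    MulAction.IsPretransitive L I → (∃ x ∈ X, ∃ i : I, x • i ≠ i) →
    ∀ (q s : ℕ) (a h : L), 0 < q → q ≤ e → 0 < s → s ≤ e → a ^ q = 1 → h ^ s = 1 →
    a * h = h * a → ∀ t : Fin n → L, (∀ l, ∃ κ μ : ℕ, t l = a ^ κ * h ^ μ) →
    (∀ l, B ≤ (ψ (t l) : Perm Ω).support.card) →
    ∃ j : Fin n → I, (∀ l, t l • j l ≠ j l) ∧ ∀ l l' : Fin n, l ≠ l' →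
      j l ≠ j l' ∧ t l • j l ≠ t l' • j l' ∧ j l ≠ t l' • j l'

def T_DVA : Prop := ∀ (L I : Type) [Group L] [Finite L] [MulAction L I]
    (Z M : Subgroup L) (T : I → Subgroup L), RSoc Z M T →
    ∀ (K V : Type) [Field K] [AddCommGroup V] [Module K V] (ρ : L →* Module.End K V),
    (∃ v : V, v ≠ 0) → Scal ρ Z →
    ∀ i k : I, i ≠ k → ∀ x ∈ T i, ∀ y ∈ T k, ρ x * ρ y = ρ y * ρ x

def T_DVB : Prop := ∀ (L I : Type) [Group L] [Finite L] [MulAction L I]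
    (Z M : Subgroup L) (T : I → Subgroup L), Z.Normal → RSoc Z M T →
    ∀ (K : Type) [Field K] (i : I), ∃ x ∈ T i, ∃ n : ℕ, (n : K) ≠ 0 ∧ x ^ n = 1 ∧
      ∃ c ∈ T i, x * c * x⁻¹ * c⁻¹ ∉ Z

def T_DV : Prop := ∀ (L I : Type) [Group L] [Finite L] [Fintype I] [DecidableEq I]
    [MulAction L I] (Z M : Subgroup L) (T : I → Subgroup L), M.Normal → Z.Normal →
    Z ≤ M → RSoc Z M T →
    ∀ (K V : Type) [Field K] [IsAlgClosed K] [AddCommGroup V] [Module K V]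
    [Module.Finite K V] (ρ : L →* Module.End K V), (∃ v : V, v ≠ 0) → Faith ρ M →
    (∀ x ∈ M, x ∈ Z ↔ ∃ z : K, ∀ v : V, ρ x v = z • v) →
    ∀ (n : ℕ) (t : Fin n → L) (j : Fin n → I), (∀ l, t l • j l ≠ j l) →
    (∀ l l' : Fin n, l ≠ l' →
      j l ≠ j l' ∧ t l • j l ≠ t l' • j l' ∧ j l ≠ t l' • j l') →
    ∃ (v : V) (x : Fin n → L) (μ ν : Fin n → K), v ≠ 0 ∧ ∀ l, x l ∈ T (j l) ∧
      ρ (x l) v = μ l • v ∧ ρ (t l * x l * (t l)⁻¹) v = ν l • v ∧ μ l ≠ ν l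

def T_PDX : Prop := ∀ e : ℕ, ∃ B : ℕ, ∀ (L Ω : Type) [Group L] [Finite L] [Fintype Ω]
    [DecidableEq Ω] (ψ : L →* alternatingGroup Ω) (X : Subgroup L), XMin ψ X →
    Sch (ψ.ker ⊓ X) → ∀ (K V : Type) [Field K] [IsAlgClosed K] [AddCommGroup V]
    [Module K V] [Module.Finite K V] (ρ : L →* Module.End K V), (∃ v : V, v ≠ 0) →
    ∀ M : Subgroup L, M.Normal → M ≤ ψ.ker ⊓ X → Faith ρ M → ¬ Scal ρ M →
    (∀ M' : Subgroup L, M'.Normal → M' < M → Scal ρ M') → ⁅M, M⁆ = M →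
    ∀ (q : ℕ) (a : L), LP ψ ρ e B q a → False

def T_CD0 : Prop := ∀ e : ℕ, ∃ B : ℕ, ∀ (L Ω : Type) [Group L] [Finite L] [Fintype Ω]
    [DecidableEq Ω] (ψ : L →* alternatingGroup Ω) (K V : Type) [Field K] [IsAlgClosed K]
    [AddCommGroup V] [Module K V] (ρ : L →* Module.End K V) (c : Perm Ω → Module.End K V)
    (q : ℕ) (a : L), Function.Surjective ψ → (∃ v : V, v ≠ 0) → Scal ρ ψ.ker →
    CanLift ψ ρ q c → q.Prime → 5 ≤ q → q ≤ e → a ^ q = 1 →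
    B ≤ (ψ a : Perm Ω).support.card → (q : K) ≠ 0 → (∀ v : V, ρ a v = v → v = 0) →
    ∀ s₁ s₂ : Perm Ω, s₁.IsCycle → s₁.support.card = q → s₂.IsCycle →
    s₂.support.card = q → Equiv.Perm.Disjoint s₁ s₂ →
    ∀ v : V, c s₁ (c s₂ v) - c s₁ v - c s₂ v + v = 0

def T_KA : Prop := ∀ (L Ω : Type) [Group L] [Finite L] [Fintype Ω] [DecidableEq Ω]
    (ψ : L →* alternatingGroup Ω) (X : Subgroup L), XMin ψ X → ∀ (K V : Type) [Field K]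
    [IsAlgClosed K] [AddCommGroup V] [Module K V] (ρ : L →* Module.End K V),
    (∃ v : V, v ≠ 0) → Scal ρ (ψ.ker ⊓ X) → ∀ (q : ℕ) (a : L), q.Prime → 5 ≤ q →
    q + 5 ≤ Fintype.card Ω → a ^ q = 1 →
    (∀ k ∈ ψ.ker, ∀ x ∈ X, ρ k * ρ x = ρ x * ρ k) ∧
    ∀ xa ∈ X, ψ xa = ψ a → ∀ h : L, a * h = h * a → ρ xa * ρ h = ρ h * ρ xa

def T_PCX : Prop := ∀ e : ℕ, ∃ B : ℕ, ∀ (L Ω : Type) [Group L] [Finite L] [Fintype Ω]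
    [DecidableEq Ω] (ψ : L →* alternatingGroup Ω) (X : Subgroup L), XMin ψ X →
    ∀ (K V : Type) [Field K] [IsAlgClosed K] [AddCommGroup V] [Module K V]
    [Module.Finite K V] (ρ : L →* Module.End K V), (∃ v : V, v ≠ 0) →
    Scal ρ (ψ.ker ⊓ X) → ∀ (q p : ℕ) (a h : L), HPair ψ e B q p a h → (q : K) ≠ 0 →
    Rel ρ a h q → ∃ v : V, v ≠ 0 ∧ LocAt ψ X e ρ v

def T_PC0 : Prop := ∀ e : ℕ, ∃ B : ℕ, ∀ (L Ω : Type) [Group L] [Finite L] [Fintype Ω]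
    [DecidableEq Ω] (ψ : L →* alternatingGroup Ω) (X : Subgroup L), XMin ψ X →
    ∀ (K V : Type) [Field K] [IsAlgClosed K] [AddCommGroup V] [Module K V]
    [Module.Finite K V] (ρ : L →* Module.End K V), (∃ v : V, v ≠ 0) →
    Scal ρ (ψ.ker ⊓ X) → ∀ (q : ℕ) (a : L), q.Prime → 5 ≤ q → q ≤ e → a ^ q = 1 →
    B ≤ (ψ a : Perm Ω).support.card → (q : K) ≠ 0 → (∀ v : V, ρ a v = v → v = 0) →
    ∃ v : V, v ≠ 0 ∧ LocAt ψ X e ρ v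

def T_LOC : Prop := ∀ e : ℕ, ∃ B : ℕ, ∀ (L Ω : Type) [Group L] [Finite L] [Fintype Ω]
    [DecidableEq Ω] (ψ : L →* alternatingGroup Ω) (X : Subgroup L), XMin ψ X →
    Sch (ψ.ker ⊓ X) → ∀ (K V : Type) [Field K] [IsAlgClosed K] [AddCommGroup V]
    [Module K V] [Module.Finite K V] (ρ : L →* Module.End K V), (∃ v : V, v ≠ 0) →
    (∀ M : Subgroup L, M.Normal → M ≤ X → Faith ρ M) →
    (∀ r : ℕ, r.Prime → ∃ (q : ℕ) (a : L), q ≠ r ∧ LP ψ ρ e B q a) →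
    ∃ v : V, v ≠ 0 ∧ LocAt ψ X e ρ v

def T_P2X : Prop := ∀ e : ℕ, ∃ B : ℕ, ∀ (L Ω : Type) [Group L] [Finite L] [Fintype Ω]
    [DecidableEq Ω] (ψ : L →* alternatingGroup Ω) (X : Subgroup L), XMin ψ X →
    Sch (ψ.ker ⊓ X) → ∀ (K V : Type) [Field K] [IsAlgClosed K] [AddCommGroup V]
    [Module K V] [Module.Finite K V] (ρ : L →* Module.End K V), Irr ρ →
    (∀ r : ℕ, r.Prime → ∃ (q p : ℕ) (a h : L), q ≠ r ∧ HPair ψ e B q p a h ∧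
      (q : K) ≠ 0 ∧ (p : K) ≠ 0 ∧ Rel ρ a h q) → ∀ v : V, LocAt ψ X e ρ v

/-! ### Chief factors and the finite group -/

def T_RPX : Prop := ∀ e : ℕ, ∃ B : ℕ, ∀ (H Ω : Type) [Group H] [Finite H] [Fintype Ω]
    [DecidableEq Ω] (ψ : H →* alternatingGroup Ω) (X : Subgroup H), XMin ψ X →
    Sch (ψ.ker ⊓ X) → ∀ ℓ : ℕ, ℓ.Prime → ∀ A B' : Subgroup H, A.Normal → B'.Normal →
    B' < A → A ≤ ψ.ker ⊓ X → IsPGroup ℓ A →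
    (∀ M : Subgroup H, M.Normal → B' ≤ M → M ≤ A → M = B' ∨ M = A) →
    (∀ r : ℕ, r.Prime → ∃ (q p : ℕ) (a h : H), q ≠ r ∧ q ≠ ℓ ∧ p ≠ ℓ ∧
      HPair ψ e B q p a h ∧ ∀ x ∈ A, a * x * a⁻¹ * x⁻¹ ∈ B' → h * x * h⁻¹ * x⁻¹ ∈ B') →
    LocSecX ψ X e A B'

def T_JN : Prop := ∀ (H : Type) [Group H] [Finite H] (J : Subgroup H), J.Normal →
    (∀ ℓ : ℕ, ℓ.Prime → ∀ A B : Subgroup H, A.Normal → B.Normal → B < A → A ≤ J →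
      IsPGroup ℓ A → (∀ M : Subgroup H, M.Normal → B ≤ M → M ≤ A → M = B ∨ M = A) →
      ∀ y ∈ J, ∀ x ∈ A, y * x * y⁻¹ * x⁻¹ ∈ B) →
    Group.IsNilpotent J ∨ ∃ J₁ B₁ : Subgroup H, J₁.Normal ∧ B₁.Normal ∧ B₁ < J₁ ∧
      J₁ ≤ J ∧ ⁅J₁, J₁⁆ = J₁ ∧ (∀ x ∈ B₁, ∀ y ∈ J₁, x * y = y * x) ∧
      ∀ M : Subgroup H, M.Normal → B₁ ≤ M → M ≤ J₁ → M = B₁ ∨ M = J₁

def T_JX : Prop := ∀ (H Ω : Type) [Group H] [Finite H] [Fintype Ω] [DecidableEq Ω]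
    (ψ : H →* alternatingGroup Ω) (X : Subgroup H), XMin ψ X → ∀ c : ℕ, 5 ≤ c →
    (∀ ℓ : ℕ, ℓ.Prime → ∀ A B : Subgroup H, A.Normal → B.Normal → B < A →
      A ≤ ψ.ker ⊓ X → IsPGroup ℓ A →
      (∀ M : Subgroup H, M.Normal → B ≤ M → M ≤ A → M = B ∨ M = A) →
      LocSecX ψ X c A B) →
    LocGrpX ψ X c ⊥ ∨ ∃ J₁ B₁ : Subgroup H, J₁.Normal ∧ B₁.Normal ∧ B₁ < J₁ ∧
      J₁ ≤ ψ.ker ⊓ X ∧ ⁅J₁, J₁⁆ = J₁ ∧ (∀ x ∈ B₁, ∀ y ∈ J₁, x * y = y * x) ∧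
      ∀ M : Subgroup H, M.Normal → B₁ ≤ M → M ≤ J₁ → M = B₁ ∨ M = J₁

def T_CM1 : Prop := ∀ (C : Type) [Group C] [Finite C] (S : Subgroup C), S.Normal →
    Group.IsSolvable S → ∀ (m : ℕ) (E : Fin m → Subgroup C), (∀ i, ⁅E i, E i⁆ = E i) →
    (∀ i, E i ≠ ⊥) → (∀ i j, i ≠ j → ∀ x ∈ E i, ∀ y ∈ E j, x * y = y * x) →
    2 ^ m ≤ S.index

def T_CMX : Prop := ∀ c ℓ : ℕ, ∃ B : ℕ, ∀ (H Ω : Type) [Group H] [Finite H] [Fintype Ω]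
    [DecidableEq Ω] (ψ : H →* alternatingGroup Ω) (X : Subgroup H), XMin ψ X →
    Sch (ψ.ker ⊓ X) → ∀ J B₁ : Subgroup H, J.Normal → B₁.Normal → B₁ < J →
    J ≤ ψ.ker ⊓ X → ⁅J, J⁆ = J → (∀ x ∈ B₁, ∀ y ∈ J, x * y = y * x) →
    (∀ M : Subgroup H, M.Normal → B₁ ≤ M → M ≤ J → M = B₁ ∨ M = J) → ℓ.Prime →
    ∀ g : H, g ^ ℓ = 1 → B ≤ (ψ g : Perm Ω).support.card →
    ∀ S : Subgroup (Subgroup.centralizer ({g} : Set H)), S.Normal → Group.IsSolvable S →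
    c ≤ S.index

def T_CQX : Prop := ∀ (L Q : Type) [Group L] [Finite L] [Group Q] (π : L →* Q),
    Function.Surjective π → ∀ ℓ : ℕ, ℓ.Prime → ¬ ℓ ∣ Nat.card π.ker → ∀ g : L,
    g ^ ℓ = 1 → ∀ c : ℕ,
    (∀ S : Subgroup (Subgroup.centralizer ({π g} : Set Q)), S.Normal →
      Group.IsSolvable S → c ≤ S.index) →
    ∀ S : Subgroup (Subgroup.centralizer ({g} : Set L)), S.Normal → Group.IsSolvable S →
    c ≤ S.index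

def T_I4X : Prop := ∀ (L Ω : Type) [Group L] [Finite L] [Fintype Ω] [DecidableEq Ω]
    (ψ : L →* alternatingGroup Ω) (X : Subgroup L), XMin ψ X → ∀ K₀ : Subgroup L,
    K₀.Normal → K₀ ≤ ψ.ker → ∀ ℓ c₀ c : ℕ, ℓ.Prime → ¬ ℓ ∣ Nat.card K₀ →
    LocGrpX ψ X c₀ K₀ → 5 ≤ c → c₀ ≤ c → ∀ g : L, g ^ ℓ = 1 →
    ℓ * c ≤ (ψ g : Perm Ω).support.card →
    ∀ S : Subgroup (Subgroup.centralizer ({g} : Set L)), S.Normal → Group.IsSolvable S →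
    c.factorial ≤ 2 * S.index

def T_FX1 : Prop := ∀ e c ℓ : ℕ, ∃ B : ℕ, ∀ (L Ω : Type) [Group L] [Finite L] [Fintype Ω]
    [DecidableEq Ω] (ψ : L →* alternatingGroup Ω) (X : Subgroup L), XMin ψ X →
    Sch (ψ.ker ⊓ X) → ∀ K₀ : Subgroup L, K₀.Normal → K₀ ≤ ψ.ker ⊓ X →
    ∀ (q p : Fin 4 → ℕ) (a h : Fin 4 → L) (P : Fin 4 → Subgroup L),
    (∀ i, HPair ψ e B (q i) (p i) (a i) (h i)) → (∀ i, ¬ q i ∣ Nat.card K₀) →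
    (∀ i, ∀ x ∈ P i, a i * x = x * a i) →
    (∀ i, ∀ x : L, a i * x = x * a i → ∀ y ∈ P i, x * y * x⁻¹ ∈ P i) →
    (∀ i, ∀ x ∈ P i, ∃ k : ℕ, x ^ (p i ^ k) = 1) → (∀ i, h i ∈ P i) →
    (∀ ℓ' : ℕ, ℓ'.Prime → ∀ A : Subgroup L, A.Normal → K₀ < A → A ≤ ψ.ker ⊓ X →
      (∀ x ∈ A, ∃ k : ℕ, x ^ (ℓ' ^ k) ∈ K₀) →
      ∀ r : ℕ, r.Prime → ∃ i, q i ≠ r ∧ q i ≠ ℓ' ∧ p i ≠ ℓ') →
    LocGrpX ψ X e K₀ ∨ ∀ g : L, ℓ.Prime → ¬ ℓ ∣ Nat.card K₀ → g ^ ℓ = 1 →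
      B ≤ (ψ g : Perm Ω).support.card →
      ∀ S : Subgroup (Subgroup.centralizer ({g} : Set L)), S.Normal →
      Group.IsSolvable S → c ≤ S.index

def T_FX : Prop := ∀ e c ℓ : ℕ, ∃ B : ℕ, ∀ (L Ω : Type) [Group L] [Finite L] [Fintype Ω]
    [DecidableEq Ω] (ψ : L →* alternatingGroup Ω), Function.Surjective ψ → Sch ψ.ker →
    ∀ (q p : Fin 4 → ℕ) (a h : Fin 4 → L) (P : Fin 4 → Subgroup L),
    (∀ i, HPair ψ e B (q i) (p i) (a i) (h i)) → Function.Injective q →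
    (∀ i, ∀ x ∈ P i, a i * x = x * a i) →
    (∀ i, ∀ x : L, a i * x = x * a i → ∀ y ∈ P i, x * y * x⁻¹ ∈ P i) →
    (∀ i, ∀ x ∈ P i, ∃ k : ℕ, x ^ (p i ^ k) = 1) → (∀ i, h i ∈ P i) →
    ((∃ p₀ : ℕ, ∀ i, p i = p₀ ∧ q i ≠ p₀) ∨ Function.Injective p) →
    ∀ g : L, ℓ.Prime → (∀ i, p i ≠ ℓ) → g ^ ℓ = 1 →
    B ≤ (ψ g : Perm Ω).support.card →
    ∀ S : Subgroup (Subgroup.centralizer ({g} : Set L)), S.Normal → Group.IsSolvable S →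
    c ≤ S.index

/-! ### The simple group -/

def T_GFX : Prop := ∀ (G : Type) [Group G] (x₀ : G) (B₀ : ℕ),
    (∀ (F : Finset G) (k : ℕ), ∃ (L : Subgroup G) (n : ℕ)
      (φ : L →* alternatingGroup (Fin n)), KGood F L n φ ∧ k ≤ n ∧
        ∃ hx : x₀ ∈ L, (φ ⟨x₀, hx⟩ : Perm (Fin n)).support.card ≤ B₀) →
    ∃ (I : Type) (U : Ultrafilter I) (n : I → ℕ) (act : ∀ i, G → Perm (Fin (n i))),
      (∀ y z : G, ∀ᶠ i in (U : Filter I), act i (y * z) = act i y * act i z) ∧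
      (∀ y : G, y ≠ 1 → ∀ᶠ i in (U : Filter I), act i y ≠ 1) ∧
      ∀ᶠ i in (U : Filter I), (act i x₀).support.card ≤ B₀

def T_GUX : Prop := ∀ (G : Type) [Group G], KCover G →
    (∀ x : G, x ≠ 1 → ∀ B : ℕ, ∃ (F : Finset G) (k : ℕ), ∀ (L : Subgroup G) (n : ℕ)
      (φ : L →* alternatingGroup (Fin n)), KGood F L n φ → k ≤ n →
        ∀ hx : x ∈ L, B < (φ ⟨x, hx⟩ : Perm (Fin n)).support.card) → ¬ AS G

def T_GNX : Prop := ∀ (G : Type) [Group G] [IsSimpleGroup G], KCover G → ¬ AS G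

end Pool.Agent.H11.NZ
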