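import Pool.Agent.H11.NY.Targets
import Pool.Agent.H11.NZ.Targets
import Pool.Agent.H11.NY2.GW
import Pool.Agent.H11.NY2.I2
import Pool.Agent.H12.NY.INT
import Pool.Agent.H12.NZ.DC
import Pool.Agent.H12.NZ.STX
import Pool.Agent.H13.NY.C2
import Pool.Agent.H13.NZ.RS
import Pool.Agent.H14.NZ.XE
import Pool.Agent.H14.NZ.XP
import Pool.Agent.H19.NY.AC5
import Pool.Agent.H19.NY.BP
import Pool.Agent.H19.NZ.DVB
import Pool.Agent.H19.NZ.QPB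
import Pool.Agent.H19.NZ.XNT
import Pool.Agent.H19.NZ.XS
import Pool.Agent.H21.NY.AF2
import Pool.Agent.H21.NZ.DV
import Pool.Agent.H21.NZ.MV
import Pool.Agent.H23.NZ.PTN
import Pool.Agent.H3.NZ.PC0
import Pool.Agent.H3.NZ.PCX
import Pool.Agent.H33.NY.A2
import Pool.Agent.H33.NY.BC
import Pool.Agent.H33.NY.H1
import Pool.Agent.H33.NY.H2
import Pool.Agent.H33.NZ.LPX
import Pool.Agent.H33.NZ.PTK
import Pool.Agent.H34.NZ.CLS
import Pool.Agent.H34.NZ.OUT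
import Pool.Agent.H47.NY.SR
import Pool.Agent.H47.NZ.RPX
import Pool.Agent.H47.NZ.RSS
import Pool.Agent.H47.NZ.TQ
import Pool.Agent.H48.NY.GS
import Pool.Agent.H48.NY.H4
import Pool.Agent.H48.NZ.CM1
import Pool.Agent.H48.NZ.GFX
import Pool.Agent.H49.NY.IMP
import Pool.Agent.H49.NZ.FX
import Pool.Agent.H5.NZ.GUX
import Pool.Agent.H5.NZ.JN
import Pool.Agent.H5.NZ.QPA
import Pool.Agent.H50.NZ.FPA
import Pool.Agent.H51.NZ.CAX
import Pool.Agent.H54.NZ.GNX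
import Pool.Agent.H54.NZ.OF
import Pool.Agent.H56.NZ.DP
import Pool.Agent.H56.NZ.FX1
import Pool.Agent.H58.NY.DEN
import Pool.Agent.H58.NY.PLA
import Pool.Agent.H58.NY.SEL
import Pool.Agent.H58.NZ.DE
import Pool.Agent.H58.NZ.XC
import Pool.Agent.H58.NZ.XQ
import Pool.Agent.H59.NY.DX
import Pool.Agent.H59.NZ.FBA
import Pool.Agent.H59.NZ.NCM
import Pool.Agent.H6.NZ.NSS
import Pool.Agent.H60.NY.AC
import Pool.Agent.H60.NZ.DVA
import Pool.Agent.H60.NZ.KA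
import Pool.Agent.H65.NY.C1
import Pool.Agent.H65.NY.TC
import Pool.Agent.H66.NZ.FPR
import Pool.Agent.H66.NZ.PTA
import Pool.Agent.H69.NY.C6
import Pool.Agent.H69.NY.H3
import Pool.Agent.H74.NY.GK
import Pool.Agent.H74.NY.I3b
import Pool.Agent.H74.NZ.FBB
import Pool.Agent.H74.NZ.FPB
import Pool.Agent.H85.NY.C7
import Pool.Agent.H85.NZ.FBF
import Pool.Agent.H85.NZ.FPS
import Pool.Agent.H86.NY.CD
import Pool.Agent.H86.NY.OP
import Pool.Agent.H86.NY.PC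
import Pool.Agent.H86.NZ.B1X
import Pool.Agent.H86.NZ.DSL
import Pool.Agent.H86.NZ.I4X
import Pool.Agent.H86.NZ.PBX
import Pool.Agent.H87.NY.AC1
import Pool.Agent.H87.NY.BG
import Pool.Agent.H87.NZ.CQX
import Pool.Agent.H87.NZ.JX
import Pool.Agent.H87.NZ.LOC
import Pool.Agent.H89.NY.AC4
import Pool.Agent.H89.NZ.PTR
import Pool.Agent.H91.NY.AC2
import Pool.Agent.H91.NY.AC3
import Pool.Agent.H92.NZ.CD0
import Pool.Agent.H92.NZ.PDX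
import Pool.Agent.H94.NY.C3
import Pool.Agent.H94.NY.C4
import Pool.Agent.H94.NY.C5
import Pool.Agent.H94.NY.CE
import Pool.Agent.H94.NZ.A5X
import Pool.Agent.H94.NZ.AC0
import Pool.Agent.H94.NZ.AIX
import Pool.Agent.H94.NZ.PT
import Pool.Agent.H99.NZ.CMX
import Pool.Agent.H99.NZ.P2X
import Pool.Agent.H48.NS.FP
import Pool.Agent.H74.NS.RH

/-!
# Assembly of the board nz_modules (MP_9b2842_al)
-/

set_option autoImplicit false

namespace Pool.Agent.H11.NZ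

open Pool.Agent.H11.NY

theorem all_gfx : T_GFX :=
  Pool.Agent.H48.NZ.GFX.pf_gfx

theorem all_xe : T_XE :=
  Pool.Agent.H14.NZ.XE.pf_xe

theorem all_xq : T_XQ :=
  Pool.Agent.H58.NZ.XQ.pf_xq

theorem all_bc : T_BC :=
  Pool.Agent.H33.NY.BC.pf_bc

theorem all_xs : T_XS :=
  Pool.Agent.H19.NZ.XS.pf_xs

theorem all_dc : T_DC :=
  Pool.Agent.H12.NZ.DC.pf_dc

theorem all_a2 : T_A2 :=
  Pool.Agent.H33.NY.A2.pf_a2

theorem all_xc : T_XC :=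
  Pool.Agent.H58.NZ.XC.pf_xc

theorem all_of : T_OF :=
  Pool.Agent.H54.NZ.OF.pf_of all_xc

theorem all_af2 : T_AF2 :=
  Pool.Agent.H21.NY.AF2.pf_af2

theorem all_pta : T_PTA :=
  Pool.Agent.H66.NZ.PTA.pf_pta all_af2 all_xc

theorem all_nss : T_NSS :=
  Pool.Agent.H6.NZ.NSS.pf_nss

theorem all_rs : T_RS :=
  Pool.Agent.H13.NZ.RS.pf_rs all_nss

theorem all_xp : T_XP :=
  Pool.Agent.H14.NZ.XP.pf_xp

theorem all_out : T_OUT :=
  Pool.Agent.H34.NZ.OUT.pf_out all_xp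

theorem all_xnt : T_XNT :=
  Pool.Agent.H19.NZ.XNT.pf_xnt all_xq all_out

theorem all_rss : T_RSS :=
  Pool.Agent.H47.NZ.RSS.pf_rss

theorem all_ncm : T_NCM :=
  Pool.Agent.H59.NZ.NCM.pf_ncm

theorem all_pla : T_PLA :=
  Pool.Agent.H58.NY.PLA.pf_pla

theorem all_cls : T_CLS :=
  Pool.Agent.H34.NZ.CLS.pf_cls all_pla

theorem all_mv : T_MV :=
  Pool.Agent.H21.NZ.MV.pf_mv all_ncm all_cls

theorem all_fpa : T_FPA :=
  Pool.Agent.H50.NZ.FPA.pf_fpa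

theorem all_fbf : T_FBF :=
  Pool.Agent.H85.NZ.FBF.pf_fbf

theorem all_tq : T_TQ :=
  Pool.Agent.H47.NZ.TQ.pf_tq

theorem all_fba : T_FBA :=
  Pool.Agent.H59.NZ.FBA.pf_fba all_tq

theorem all_fbb : T_FBB :=
  Pool.Agent.H74.NZ.FBB.pf_fbb

theorem all_fpb : T_FPB :=
  Pool.Agent.H74.NZ.FPB.pf_fpb all_fbf all_fba all_fbb

theorem all_fps : T_FPS :=
  Pool.Agent.H85.NZ.FPS.pf_fps

theorem all_fpr : T_FPR :=
  Pool.Agent.H66.NZ.FPR.pf_fpr all_fpa all_fpb all_fps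

theorem all_ptn : T_PTN :=
  Pool.Agent.H23.NZ.PTN.pf_ptn all_xc all_rs all_xnt all_rss all_mv all_fpr

theorem all_ptr : T_PTR :=
  Pool.Agent.H89.NZ.PTR.pf_ptr all_cls

theorem all_sel : T_SEL :=
  Pool.Agent.H58.NY.SEL.pf_sel

theorem all_den : T_DEN :=
  Pool.Agent.H58.NY.DEN.pf_den all_sel all_pla

theorem all_tc : T_TC :=
  Pool.Agent.H65.NY.TC.pf_tc

theorem all_imp : T_IMP :=
  Pool.Agent.H49.NY.IMP.pf_imp all_sel all_pla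

theorem all_int : T_INT :=
  Pool.Agent.H12.NY.INT.pf_int all_sel all_pla

theorem all_bp : T_BP :=
  Pool.Agent.H19.NY.BP.pf_bp all_den all_tc all_imp all_int

theorem all_ptk : T_PTK :=
  Pool.Agent.H33.NZ.PTK.pf_ptk all_bp

theorem all_pt : T_PT :=
  Pool.Agent.H94.NZ.PT.pf_pt all_xs all_of all_pta all_ptn all_ptr all_ptk

theorem all_stx : T_STX :=
  Pool.Agent.H12.NZ.STX.pf_stx

theorem all_a5x : T_A5X :=
  Pool.Agent.H94.NZ.A5X.pf_a5x all_stx all_dc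

theorem all_cax : T_CAX :=
  Pool.Agent.H51.NZ.pf_cax all_a2 all_pt all_a5x

theorem all_qpa : T_QPA :=
  Pool.Agent.H5.NZ.QPA.pf_qpa

theorem all_qpb : T_QPB :=
  Pool.Agent.H19.NZ.QPB.pf_qpb

theorem all_aix : T_AIX :=
  Pool.Agent.H94.NZ.AIX.pf_aix all_a2 all_xc

theorem all_lpx : T_LPX :=
  Pool.Agent.H33.NZ.LPX.pf_lpx

theorem all_c1 : T_C1 :=
  Pool.Agent.H65.NY.C1.pf_c1

theorem all_dx : T_DX :=
  Pool.Agent.H59.NY.DX.pf_dx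

theorem all_c2 : T_C2 :=
  Pool.Agent.H13.NY.C2.pf_c2 all_c1 all_dx

theorem all_ka : T_KA :=
  Pool.Agent.H60.NZ.KA.pf_ka all_xp all_c2

theorem all_dp : T_DP :=
  Pool.Agent.H56.NZ.DP.pf_dp

theorem all_c3 : T_C3 :=
  Pool.Agent.H94.NY.C3.pf_c3

theorem all_c4 : T_C4 :=
  Pool.Agent.H94.NY.C4.pf_c4 all_c3

theorem all_c5 : T_C5 :=
  Pool.Agent.H94.NY.C5.pf_c5

theorem all_c6 : T_C6 :=
  Pool.Agent.H69.NY.C6.pf_c6

theorem all_c7 : T_C7 :=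
  Pool.Agent.H85.NY.C7.pf_c7

theorem all_h1 : T_H1 :=
  Pool.Agent.H33.NY.H1.pf_h1 all_c4

theorem all_h2 : T_H2 :=
  Pool.Agent.H33.NY.H2.pf_h2 all_c1 all_dx all_c3 all_c4

theorem all_h3 : T_H3 :=
  Pool.Agent.H69.NY.H3.pf_h3

theorem all_h4 : T_H4 :=
  Pool.Agent.H48.NY.H4.pf_h4 all_c4 all_c5 all_c6

theorem all_cd : T_CD :=
  Pool.Agent.H86.NY.CD.pf_cd all_c4 all_c5 all_c6 all_c7 all_h1 all_h2 all_h3 all_h4

theorem all_ce : T_CE :=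
  Pool.Agent.H94.NY.CE.pf_ce

theorem all_pc : T_PC :=
  Pool.Agent.H86.NY.PC.pf_pc all_c2 all_cd all_ce

theorem all_pcx : T_PCX :=
  Pool.Agent.H3.NZ.PCX.pf_pcx all_ka all_dp all_pc

theorem all_cd0 : T_CD0 :=
  Pool.Agent.H92.NZ.CD0.pf_cd0 all_c4 all_c5 all_c6 all_c7

theorem all_pc0 : T_PC0 :=
  Pool.Agent.H3.NZ.PC0.pf_pc0 all_ka all_dp all_c2 all_cd0 all_ce

theorem all_b1x : T_B1X :=
  Pool.Agent.H86.NZ.B1X.pf_b1x all_xp all_xc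

theorem all_bg : T_BG :=
  Pool.Agent.H87.NY.BG.pf_bg

theorem all_ac1 : T_AC1 :=
  Pool.Agent.H87.NY.AC1.pf_ac1

theorem all_ac2 : T_AC2 :=
  Pool.Agent.H91.NY.AC2.pf_ac2

theorem all_ac3 : T_AC3 :=
  Pool.Agent.H91.NY.AC3.pf_ac3

theorem all_ac4 : T_AC4 :=
  Pool.Agent.H89.NY.AC4.pf_ac4

theorem all_ac5 : T_AC5 :=
  Pool.Agent.H19.NY.AC5.pf_ac5 all_ac4

theorem all_ac : T_AC :=
  Pool.Agent.H60.NY.AC.pf_ac all_ac1 all_ac2 all_ac3 all_ac5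

theorem all_ac0 : T_AC0 :=
  Pool.Agent.H94.NZ.AC0.pf_ac0 all_ac1 all_ac2 all_ac3 all_ac4

theorem all_pbx : T_PBX :=
  Pool.Agent.H86.NZ.PBX.pf_pbx all_b1x all_bg all_ac all_ac0

theorem all_dsl : T_DSL :=
  Pool.Agent.H86.NZ.DSL.pf_dsl all_sel all_mv

theorem all_dva : T_DVA :=
  Pool.Agent.H60.NZ.DVA.pf_dva

theorem all_dvb : T_DVB :=
  Pool.Agent.H19.NZ.DVB.pf_dvb

theorem all_dv : T_DV :=
  Pool.Agent.H21.NZ.DV.pf_dv all_dva all_dvb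

theorem all_pdx : T_PDX :=
  Pool.Agent.H92.NZ.PDX.pf_pdx all_rs all_xnt all_dsl all_dv

theorem all_loc : T_LOC :=
  Pool.Agent.H87.NZ.LOC.pf_loc all_pcx all_pc0 all_pbx all_pdx

theorem all_p2x : T_P2X :=
  Pool.Agent.H99.NZ.P2X.pf_p2x all_xs all_dc all_cax all_qpa all_qpb all_aix all_lpx all_loc

theorem all_rpx : T_RPX :=
  Pool.Agent.H47.NZ.RPX.pf_rpx Pool.Agent.H74.NS.RH.pf_rh all_bc all_p2x

theorem all_sr : T_SR :=
  Pool.Agent.H47.NY.SR.pf_sr Pool.Agent.H48.NSFP.pf_fp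

theorem all_i2 : T_I2 :=
  Pool.Agent.H11.NY2.I2.pf_i2

theorem all_i3b : T_I3b :=
  Pool.Agent.H74.NY.I3b.pf_i3b

theorem all_jn : T_JN :=
  Pool.Agent.H5.NZ.JN.pf_jn all_i3b

theorem all_jx : T_JX :=
  Pool.Agent.H87.NZ.JX.pf_jx all_dc all_dp all_i2 all_jn

theorem all_cm1 : T_CM1 :=
  Pool.Agent.H48.NZ.CM1.pf_cm1

theorem all_cmx : T_CMX :=
  Pool.Agent.H99.NZ.CMX.pf_cmx all_rs all_xnt all_mv all_cm1

theorem all_cqx : T_CQX :=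
  Pool.Agent.H87.NZ.CQX.pf_cqx Pool.Agent.H48.NSFP.pf_fp

theorem all_fx1 : T_FX1 :=
  Pool.Agent.H56.NZ.FX1.pf_fx1 all_xq all_rpx all_sr all_jx all_cmx all_cqx

theorem all_op : T_OP :=
  Pool.Agent.H86.NY.OP.pf_op

theorem all_de : T_DE :=
  Pool.Agent.H58.NZ.DE.pf_de

theorem all_i4x : T_I4X :=
  Pool.Agent.H86.NZ.I4X.pf_i4x all_de all_dc

theorem all_fx : T_FX :=
  Pool.Agent.H49.NZ.FX.pf_fx all_xe all_fx1 all_op all_i4x

theorem all_gk : T_GK :=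
  Pool.Agent.H74.NY.GK.pf_gk

theorem all_gw : T_GW :=
  Pool.Agent.H11.NY2.GW.pf_gw

theorem all_gs : T_GS :=
  Pool.Agent.H48.NY.GS.pf_gs

theorem all_gux : T_GUX :=
  Pool.Agent.H5.NZ.GUX.pf_gux all_fx all_gk all_gw all_gs

theorem all_gnx : T_GNX :=
  Pool.Agent.H54.NZ.GNX.pf_gnx all_gfx all_gux

end Pool.Agent.H11.NZ
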