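import Pool.Agent.H11.NZ.All

/-!
# MP_9b2842_al: simple locally finite groups of alternating type

Let `G` be a simple group such that for every finite subset `F` of `G` and every `k` there are a
finite subgroup `L` containing `F` and a homomorphism `φ` of `L` onto an alternating group of degree
at least `k` which is non-trivial on the non-identity elements of `F` (a Kegel cover with
alternating factors), and such that the simple sections of the kernels have soluble outer
automorphism groups. Then some non-identity element of `G` has a centralizer which is not almost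
soluble.
-/

set_option autoImplicit false

namespace Pool.Agent.H11.NZ.AlternatingType

theorem result (G : Type) [Group G] (hG : IsSimpleGroup G)
    (hcover : ∀ (F : Finset G) (k : ℕ), ∃ (L : Subgroup G) (n : ℕ)
      (φ : L →* alternatingGroup (Fin n)), Finite L ∧ Function.Surjective φ ∧ k ≤ n ∧
        (∀ x ∈ F, ∃ hx : x ∈ L, x ≠ 1 → φ ⟨x, hx⟩ ≠ 1) ∧
        ∀ (T : Type) [Group T], IsSimpleGroup T → ∀ (A : Subgroup L) (f : A →* T),
          A ≤ φ.ker → Function.Surjective f →
          ∃ d : ℕ, derivedSeries (MulAut T) d ≤ (MulAut.conj : T →* MulAut T).range) :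
    ∃ g : G, g ≠ 1 ∧ ∀ H : Subgroup (Subgroup.centralizer ({g} : Set G)),
      H.index ≠ 0 → ¬ Group.IsSolvable H := by
  have h := Pool.Agent.H11.NZ.all_gnx G (by
    intro F k
    obtain ⟨L, n, φ, h1, h2, h3, h4, h5⟩ := hcover F k
    exact ⟨L, n, φ, ⟨h1, h2, h4, h5⟩, h3⟩)
  by_contra hcon
  apply h
  intro g hg
  by_contra h6
  apply hcon
  refine ⟨g, hg, ?_⟩
  intro H h7 h8
  exact h6 ⟨H, h7, h8⟩

end Pool.Agent.H11.NZ.AlternatingType
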