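import Pool.Agent.H11.NY.Targets

/-!
# Definitions for the board nz_modules (MP_9b2842_al, alternating type, arbitrary kernels)
-/

set_option autoImplicit false

open Equiv (Perm)

namespace Pool.Agent.H11.NZ

open Pool.Agent.H11.NY

/-- `X` is normal, covers the alternating group and has no proper subgroup normalised by `X` that
covers the alternating group -/
def XMin {L Ω : Type} [Group L] [Fintype Ω] [DecidableEq Ω] (ψ : L →* alternatingGroup Ω)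
    (X : Subgroup L) : Prop :=
  X.Normal ∧ X.map ψ = ⊤ ∧ ∀ M : Subgroup L, M ≤ X →
    (∀ x ∈ X, ∀ y ∈ M, x * y * x⁻¹ ∈ M) → M.map ψ = ⊤ → M = X

/-- `C` consists of elements of `X` living on `Δ`, is normalised by all such elements and covers
all even permutations living on `Δ` -/
def CovOn {L Ω : Type} [Group L] [Fintype Ω] [DecidableEq Ω] (ψ : L →* alternatingGroup Ω)
    (X : Subgroup L) (Δ : Finset Ω) (C : Subgroup L) : Prop :=
  C ≤ X ∧ (∀ c ∈ C, ∀ ω : Ω, ω ∉ Δ → (ψ c : Perm Ω) ω = ω) ∧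
    (∀ x ∈ X, (∀ ω : Ω, ω ∉ Δ → (ψ x : Perm Ω) ω = ω) → ∀ c ∈ C, x * c * x⁻¹ ∈ C) ∧
    ∀ σ : alternatingGroup Ω, (∀ ω : Ω, ω ∉ Δ → (σ : Perm Ω) ω = ω) → ∃ c ∈ C, ψ c = σ

/-- `D` is the least subgroup with `CovOn` -/
def DOn {L Ω : Type} [Group L] [Fintype Ω] [DecidableEq Ω] (ψ : L →* alternatingGroup Ω)
    (X : Subgroup L) (Δ : Finset Ω) (D : Subgroup L) : Prop :=
  CovOn ψ X Δ D ∧ ∀ C : Subgroup L, CovOn ψ X Δ C → D ≤ C

/-- the subgroups `D` for disjoint large sets commute modulo `B` -/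
def LocGrpX {L Ω : Type} [Group L] [Fintype Ω] [DecidableEq Ω] (ψ : L →* alternatingGroup Ω)
    (X : Subgroup L) (c : ℕ) (B : Subgroup L) : Prop :=
  ∀ Δ Δ' : Finset Ω, Disjoint Δ Δ' → c ≤ Δ.card → c ≤ Δ'.card → ∀ D D' : Subgroup L,
    DOn ψ X Δ D → DOn ψ X Δ' D' → ∀ d ∈ D, ∀ d' ∈ D', d * d' * d⁻¹ * d'⁻¹ ∈ B

/-- the subgroups `D`, `D'` for disjoint large sets satisfy `[A, D', D] ≤ B` -/
def LocSecX {L Ω : Type} [Group L] [Fintype Ω] [DecidableEq Ω] (ψ : L →* alternatingGroup Ω)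
    (X : Subgroup L) (c : ℕ) (A B : Subgroup L) : Prop :=
  ∀ Δ Δ' : Finset Ω, Disjoint Δ Δ' → c ≤ Δ.card → c ≤ Δ'.card → ∀ D D' : Subgroup L,
    DOn ψ X Δ D → DOn ψ X Δ' D' → ∀ d ∈ D, ∀ d' ∈ D', ∀ x ∈ A,
      d * (d' * x * d'⁻¹ * x⁻¹) * d⁻¹ * (d' * x * d'⁻¹ * x⁻¹)⁻¹ ∈ B

/-- the subgroups `D`, `D'` for disjoint large sets satisfy `(d - 1) (d' - 1) v = 0` -/
def LocAt {L Ω K V : Type} [Group L] [Fintype Ω] [DecidableEq Ω] [Field K] [AddCommGroup V]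
    [Module K V] (ψ : L →* alternatingGroup Ω) (X : Subgroup L) (c : ℕ)
    (ρ : L →* Module.End K V) (v : V) : Prop :=
  ∀ Δ Δ' : Finset Ω, Disjoint Δ Δ' → c ≤ Δ.card → c ≤ Δ'.card → ∀ D D' : Subgroup L,
    DOn ψ X Δ D → DOn ψ X Δ' D' → ∀ d ∈ D, ∀ d' ∈ D',
      ρ d (ρ d' v) - ρ d v - ρ d' v + v = 0

/-- the outer automorphism group of `T` is soluble -/
def OutSol (T : Type) [Group T] : Prop :=
  ∃ d : ℕ, derivedSeries (MulAut T) d ≤ (MulAut.conj : T →* MulAut T).range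

/-- every simple section of `K` has a soluble outer automorphism group -/
def Sch {L : Type} [Group L] (K : Subgroup L) : Prop :=
  ∀ (T : Type) [Group T], IsSimpleGroup T → ∀ (A : Subgroup L) (f : A →* T), A ≤ K →
    Function.Surjective f → OutSol T

/-- `N` is the product of the commuting simple non-abelian groups `T i`, permuted transitively -/
def Socle {Q I : Type} [Group Q] [MulAction Q I] (N : Subgroup Q) (T : I → Subgroup Q) :
    Prop :=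
  Nonempty I ∧ MulAction.IsPretransitive Q I ∧ (∀ i, IsSimpleGroup (T i)) ∧
    (∀ i, ∃ x ∈ T i, ∃ y ∈ T i, x * y ≠ y * x) ∧
    (∀ i j, i ≠ j → ∀ x ∈ T i, ∀ y ∈ T j, x * y = y * x) ∧
    (∀ (y : Q) (i : I), ∀ x ∈ T i, y * x * y⁻¹ ∈ T (y • i)) ∧ (⨆ i, T i) = N

/-- the same modulo the normal subgroup `Z`, with perfect subgroups `T i` of `M` -/
def RSoc {L I : Type} [Group L] [MulAction L I] (Z M : Subgroup L) (T : I → Subgroup L) :
    Prop :=
  Nonempty I ∧ MulAction.IsPretransitive L I ∧ (∀ i, T i ≤ M) ∧ (∀ i, ⁅T i, T i⁆ = T i) ∧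
    (∀ i, ¬ T i ≤ Z) ∧
    (∀ i, ∀ A : Subgroup L, A ≤ T i → (∀ x ∈ T i, ∀ y ∈ A, x * y * x⁻¹ ∈ A) →
      A ≤ Z ∨ T i ≤ A ⊔ Z) ∧
    (∀ i j, i ≠ j → ∀ x ∈ T i, ∀ y ∈ T j, x * y * x⁻¹ * y⁻¹ ∈ Z) ∧
    (∀ (y : L) (i : I), ∀ x ∈ T i, y * x * y⁻¹ ∈ T (y • i)) ∧ M ≤ (⨆ i, T i) ⊔ Z

/-- system of imprimitivity of the representation `ρ` -/
def Sys {L Λ K V : Type} [Group L] [MulAction L Λ] [Field K] [AddCommGroup V] [Module K V]
    (ρ : L →* Module.End K V) (W : Λ → Submodule K V) : Prop :=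
  iSupIndep W ∧ (⨆ x, W x) = ⊤ ∧ (∀ (y : L) (x : Λ), ∀ w ∈ W x, ρ y w ∈ W (y • x)) ∧
    (∀ x, W x ≠ ⊥) ∧ MulAction.IsPretransitive L Λ

/-- an operator in the span of `M` vanishing on a non-zero `M`-invariant subspace vanishes -/
def Faith {L K V : Type} [Group L] [Field K] [AddCommGroup V] [Module K V]
    (ρ : L →* Module.End K V) (M : Subgroup L) : Prop :=
  ∀ y ∈ Submodule.span K {y : Module.End K V | ∃ x ∈ M, y = ρ x}, ∀ U : Submodule K V,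
    U ≠ ⊥ → (∀ x ∈ M, ∀ u ∈ U, ρ x u ∈ U) → (∀ u ∈ U, y u = 0) → y = 0

/-- `a` of prime order `q`, powers with large supports, and either `a` has no fixed vector or
there is `h` with `HPair` and `Rel` -/
def LP {L Ω K V : Type} [Group L] [Fintype Ω] [DecidableEq Ω] [Field K] [AddCommGroup V]
    [Module K V] (ψ : L →* alternatingGroup Ω) (ρ : L →* Module.End K V) (e B q : ℕ)
    (a : L) : Prop :=
  q.Prime ∧ 5 ≤ q ∧ q ≤ e ∧ a ^ q = 1 ∧ a ≠ 1 ∧
    (∀ j : ℕ, a ^ j ≠ 1 → B ≤ (ψ (a ^ j) : Perm Ω).support.card) ∧ (q : K) ≠ 0 ∧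
    ((∀ v : V, ρ a v = v → v = 0) ∨
      ∃ (p : ℕ) (h : L), HPair ψ e B q p a h ∧ (p : K) ≠ 0 ∧ Rel ρ a h q)

/-- every conjugate of the pair `a`, `h` has `a` or some `h a ^ κ` in `S` -/
def TCS {L : Type} [Group L] (q : ℕ) (a h : L) (S : Subgroup L) : Prop :=
  ∀ y : L, y⁻¹ * a * y ∈ S ∨ ∃ κ < q, y⁻¹ * (h * a ^ κ) * y ∈ S

/-- `σ` is the permutation of the coordinates belonging to the automorphism `τ` -/
def Over {I : Type} {T : I → Type} [∀ i, Group (T i)] (σ : Perm I)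
    (τ : (∀ i, T i) ≃* (∀ i, T i)) : Prop :=
  ∀ (i : I) (x y : ∀ i, T i), x i = y i → τ x (σ i) = τ y (σ i)

/-- finite subgroup with an alternating quotient whose kernel has the Schreier property, and
such that the non-identity elements of `F` have non-trivial images -/
def KGood {G : Type} [Group G] (F : Finset G) (L : Subgroup G) (n : ℕ)
    (φ : L →* alternatingGroup (Fin n)) : Prop :=
  Finite L ∧ Function.Surjective φ ∧ (∀ x ∈ F, ∃ hx : x ∈ L, x ≠ 1 → φ ⟨x, hx⟩ ≠ 1) ∧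
    Sch φ.ker

/-- the group is covered by such subgroups of large degree -/
def KCover (G : Type) [Group G] : Prop :=
  ∀ (F : Finset G) (k : ℕ), ∃ (L : Subgroup G) (n : ℕ) (φ : L →* alternatingGroup (Fin n)),
    KGood F L n φ ∧ k ≤ n

end Pool.Agent.H11.NZ
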